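import Pool.Agent.H51.CUB.TDef

/-!
# H41-CC-AVG: from the sharp sums to the smooth sums

`wl x = ∫ t in 1..2, 1[x ≤ t]`, so the smooth sum is `∫ t in 1..2, T (t Y)`; if `T Y ~ l Y (log Y)^k` it is `~ (3 / 2) l Y (log Y)^k`.
-/

set_option autoImplicit false

open Filter Topology MeasureTheory

noncomputable section

namespace H41.CC

open H51.CUB

private theorem avg_wl (x : ℝ) (A : ℂ) :
    (∫ t in (1 : ℝ)..2, (Set.Ici x).indicator (fun _ => A) t) = ((wl x : ℝ) : ℂ) * A := by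
  rw [intervalIntegral.integral_of_le (by norm_num), setIntegral_indicator measurableSet_Ici,
    setIntegral_const, Complex.real_smul]
  congr 2
  unfold wl
  rcases le_or_gt x 1 with h | h
  · have h1 : Set.Ioc (1 : ℝ) 2 ∩ Set.Ici x = Set.Ioc 1 2 := by
      ext t
      simp only [Set.mem_inter_iff, Set.mem_Ioc, Set.mem_Ici]
      exact ⟨fun h => h.1, fun h' => ⟨h', by linarith [h'.1]⟩⟩
    rw [h1, Real.volume_real_Ioc_of_le (by norm_num), min_eq_left (by linarith),
      max_eq_right zero_le_one]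
    norm_num
  · rcases le_or_gt x 2 with h' | h'
    · have h1 : Set.Ioc (1 : ℝ) 2 ∩ Set.Ici x = Set.Icc x 2 := by
        ext t
        simp only [Set.mem_inter_iff, Set.mem_Ioc, Set.mem_Ici, Set.mem_Icc]
        exact ⟨fun h => ⟨h.2, h.1.2⟩, fun h'' => ⟨⟨by linarith [h''.1], h''.2⟩, h''.1⟩⟩
      rw [h1, Real.volume_real_Icc_of_le h', min_eq_right (by linarith),
        max_eq_right (by linarith)]
    · have h1 : Set.Ioc (1 : ℝ) 2 ∩ Set.Ici x = ∅ := by
        ext t
        simp only [Set.mem_inter_iff, Set.mem_Ioc, Set.mem_Ici, Set.mem_empty_iff_false, iff_false]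
        rintro ⟨h1, h2⟩
        linarith [h1.2]
      rw [h1, min_eq_right (by linarith), max_eq_left (by linarith)]
      simp

private theorem avg_ratio (k : ℕ) :
    Tendsto (fun Y : ℝ => (Real.log (2 * Y) / Real.log Y) ^ k) atTop (𝓝 1) := by
  have h1 : Tendsto (fun Y : ℝ => (Real.log 2 + Real.log Y) / Real.log Y) atTop (𝓝 1) := by
    have h2 : Tendsto (fun Y : ℝ => Real.log 2 / Real.log Y + 1) atTop (𝓝 (0 + 1)) :=
      (Real.tendsto_log_atTop.const_div_atTop _).add_const 1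
    rw [zero_add] at h2
    refine h2.congr' ?_
    filter_upwards [eventually_gt_atTop 1] with Y hY
    have := Real.log_pos hY
    field_simp
  have h3 := h1.pow k
  rw [one_pow] at h3
  refine h3.congr' ?_
  filter_upwards [eventually_gt_atTop 0] with Y hY
  rw [Real.log_mul two_ne_zero hY.ne']

variable {ι : Type} {n : ι → ℝ} {A : ι → ℂ} {ok : ι → Prop} {S : ℝ → Finset ι}

private theorem avg_int (hS : ∀ Y i, i ∈ S Y ↔ ok i ∧ n i ≤ Y) {Y : ℝ} (hY : 0 < Y) :
    IntervalIntegrable (fun t : ℝ => ∑ i ∈ S (t * Y), A i) volume 1 2 ∧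
    (∫ t in (1 : ℝ)..2, ∑ i ∈ S (t * Y), A i) = ∑ i ∈ S (2 * Y), ((wl (n i / Y) : ℝ) : ℂ) * A i := by
  have h1 : ∀ i : ι, IntervalIntegrable (fun t : ℝ => (Set.Ici (n i / Y)).indicator (fun _ => A i) t)
      volume 1 2 := by
    intro i
    rw [intervalIntegrable_iff_integrableOn_Ioc_of_le (by norm_num)]
    exact (integrable_const (A i)).indicator measurableSet_Ici
  have h2 : ∀ t ∈ Set.uIcc (1 : ℝ) 2, ∑ i ∈ S (2 * Y), (Set.Ici (n i / Y)).indicator (fun _ => A i) t =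
      ∑ i ∈ S (t * Y), A i := by
    intro t ht
    rw [Set.uIcc_of_le (by norm_num)] at ht
    have hsub : S (t * Y) ⊆ S (2 * Y) := by
      intro i hi
      rw [hS] at hi ⊢
      exact ⟨hi.1, hi.2.trans (mul_le_mul_of_nonneg_right ht.2 hY.le)⟩
    rw [← Finset.sum_subset hsub (f := fun i => (Set.Ici (n i / Y)).indicator (fun _ => A i) t)]
    · refine Finset.sum_congr rfl fun i hi => ?_
      rw [hS] at hi
      rw [Set.indicator_of_mem]
      rw [Set.mem_Ici, div_le_iff₀ hY]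
      exact hi.2
    · intro i hi hni
      rw [hS] at hi hni
      rw [Set.indicator_of_notMem]
      rw [Set.mem_Ici, div_le_iff₀ hY]
      exact fun h => hni ⟨hi.1, h⟩
  have h3 : IntervalIntegrable (fun t : ℝ => ∑ i ∈ S (2 * Y),
      (Set.Ici (n i / Y)).indicator (fun _ => A i) t) volume 1 2 := by
    have h4 : IntervalIntegrable (∑ i ∈ S (2 * Y), fun t : ℝ =>
      (Set.Ici (n i / Y)).indicator (fun _ => A i) t) volume 1 2 :=
      IntervalIntegrable.sum _ fun i _ => h1 i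
    have h5 : (∑ i ∈ S (2 * Y), fun t : ℝ =>
      (Set.Ici (n i / Y)).indicator (fun _ => A i) t) = fun t : ℝ => ∑ i ∈ S (2 * Y),
      (Set.Ici (n i / Y)).indicator (fun _ => A i) t := by
      funext t
      rw [Finset.sum_apply]
    rw [← h5]
    exact h4
  constructor
  · refine h3.congr ?_
    intro t ht
    exact h2 t (Set.uIoc_subset_uIcc ht)
  · rw [← intervalIntegral.integral_congr h2, intervalIntegral.integral_finsetSum fun i _ => h1 i]
    exact Finset.sum_congr rfl fun i _ => avg_wl _ _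

theorem avg (hS : ∀ Y i, i ∈ S Y ↔ ok i ∧ n i ≤ Y) (k : ℕ) {l : ℂ}
    (h : Tendsto (fun Y : ℝ => (∑ i ∈ S Y, A i) / ((Y * Real.log Y ^ k : ℝ) : ℂ)) atTop (𝓝 l)) :
    Tendsto (fun Y : ℝ => (∑ i ∈ S (2 * Y), ((wl (n i / Y) : ℝ) : ℂ) * A i) /
      ((Y * Real.log Y ^ k : ℝ) : ℂ)) atTop (𝓝 (3 / 2 * l)) := by
  rw [Metric.tendsto_atTop] at h
  rw [Metric.tendsto_atTop]
  intro ε hε
  obtain ⟨Y₁, hY₁⟩ := h (ε / 8) (by positivity)
  have hδ : 0 < min 1 (ε / (8 * (‖l‖ + 1))) := by positivity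
  obtain ⟨Y₂, hY₂⟩ := (Metric.tendsto_atTop.1 (avg_ratio k)) _ hδ
  refine ⟨max (max Y₁ Y₂) 3, fun Y hY => ?_⟩
  have hYa : Y₁ ≤ Y := ((le_max_left _ _).trans (le_max_left _ _)).trans hY
  have hYb : Y₂ ≤ Y := ((le_max_right _ _).trans (le_max_left _ _)).trans hY
  have hY3 : 3 ≤ Y := (le_max_right _ _).trans hY
  have hY0 : 0 < Y := by linarith
  have hl : 0 < Real.log Y := Real.log_pos (by linarith)
  obtain ⟨w, hw⟩ : ∃ w : ℝ → ℝ, w = fun Y => Y * Real.log Y ^ k := ⟨_, rfl⟩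
  have hwY : 0 < w Y := by rw [hw]; positivity
  obtain ⟨ρ, hρ⟩ : ∃ ρ, ρ = (Real.log (2 * Y) / Real.log Y) ^ k := ⟨_, rfl⟩
  have hρ1 := hY₂ Y hYb
  rw [← hρ, Real.dist_eq] at hρ1
  have hρa : |ρ - 1| < 1 := hρ1.trans_le (min_le_left _ _)
  have hρb : |ρ - 1| * (8 * (‖l‖ + 1)) < ε := by
    have h1 := hρ1.trans_le (min_le_right _ _)
    rwa [lt_div_iff₀ (by positivity)] at h1
  obtain ⟨hint, hval⟩ := avg_int (A := A) hS hY0
  rw [← hval]
  have e1 : (3 / 2 * l : ℂ) = ∫ t in (1 : ℝ)..2, l * (t : ℂ) := by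
    rw [intervalIntegral.integral_const_mul, intervalIntegral.integral_ofReal, integral_id]
    push_cast
    ring
  have e2 : (∫ t in (1 : ℝ)..2, ∑ i ∈ S (t * Y), A i) / ((w Y : ℝ) : ℂ) =
      ∫ t in (1 : ℝ)..2, (∑ i ∈ S (t * Y), A i) / ((w Y : ℝ) : ℂ) := by
    rw [intervalIntegral.integral_div]
  have hwe : ((Y * Real.log Y ^ k : ℝ) : ℂ) = ((w Y : ℝ) : ℂ) := by rw [hw]
  rw [hwe, e1, e2, dist_eq_norm, ← intervalIntegral.integral_sub]
  · have h4 : ‖∫ t in (1 : ℝ)..2, ((∑ i ∈ S (t * Y), A i) / ((w Y : ℝ) : ℂ) - l * (t : ℂ))‖ ≤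
        (3 / 4 * ε) * |2 - 1| := by
      refine intervalIntegral.norm_integral_le_of_norm_le_const fun t ht => ?_
      rw [Set.uIoc_of_le (by norm_num)] at ht
      obtain ⟨ht1, ht2⟩ := ht
      have htY : Y ≤ t * Y := by nlinarith
      have hlt : Real.log Y ≤ Real.log (t * Y) := Real.log_le_log hY0 htY
      have hlt2 : Real.log (t * Y) ≤ Real.log (2 * Y) :=
        Real.log_le_log (by positivity) (by nlinarith)
      have hwt : 0 < w (t * Y) := by
        rw [hw]
        have : 0 < Real.log (t * Y) := hl.trans_le hlt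
        positivity
      have h5 := hY₁ (t * Y) (hYa.trans htY)
      have hwe' : ((t * Y * Real.log (t * Y) ^ k : ℝ) : ℂ) = ((w (t * Y) : ℝ) : ℂ) := by rw [hw]
      rw [hwe', dist_eq_norm] at h5
      obtain ⟨r, hr⟩ : ∃ r : ℝ, r = w (t * Y) / w Y := ⟨_, rfl⟩
      have hr1 : r = t * (Real.log (t * Y) / Real.log Y) ^ k := by
        rw [hr, hw]
        simp only [div_pow]
        field_simp
      have hq1 : 1 ≤ (Real.log (t * Y) / Real.log Y) ^ k :=
        one_le_pow₀ (by rw [le_div_iff₀ hl, one_mul]; exact hlt)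
      have hq2 : (Real.log (t * Y) / Real.log Y) ^ k ≤ ρ := by
        rw [hρ]
        have : 0 ≤ Real.log (t * Y) := hl.le.trans hlt
        gcongr
      have hρ2 : ρ - 1 ≤ |ρ - 1| := le_abs_self _
      have h6 : |r - t| ≤ 2 * |ρ - 1| := by
        rw [hr1, abs_le]
        constructor
        · nlinarith [abs_nonneg (ρ - 1)]
        · nlinarith [abs_nonneg (ρ - 1)]
      have hr0 : 0 ≤ r := by rw [hr]; positivity
      have hr4 : r ≤ 4 := by
        rw [hr1]
        have hρ3 : ρ ≤ 2 := by linarith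
        nlinarith
      have h7 : (∑ i ∈ S (t * Y), A i) / ((w Y : ℝ) : ℂ) - l * (t : ℂ) =
          ((∑ i ∈ S (t * Y), A i) / ((w (t * Y) : ℝ) : ℂ) - l) * ((r : ℝ) : ℂ) +
            l * (((r - t : ℝ)) : ℂ) := by
        have h8 : ((w Y : ℝ) : ℂ) ≠ 0 := by exact_mod_cast hwY.ne'
        have h9 : ((w (t * Y) : ℝ) : ℂ) ≠ 0 := by exact_mod_cast hwt.ne'
        rw [hr]
        push_cast
        field_simp
        ring
      rw [h7]
      refine (norm_add_le _ _).trans ?_
      rw [norm_mul, norm_mul, Complex.norm_real, Complex.norm_real, Real.norm_of_nonneg hr0,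
        Real.norm_eq_abs]
      have h10 : ‖(∑ i ∈ S (t * Y), A i) / ((w (t * Y) : ℝ) : ℂ) - l‖ * r ≤ ε / 8 * 4 :=
        mul_le_mul h5.le hr4 hr0 (by positivity)
      have h11 : ‖l‖ * |r - t| ≤ ‖l‖ * (2 * |ρ - 1|) :=
        mul_le_mul_of_nonneg_left h6 (norm_nonneg _)
      nlinarith [norm_nonneg l, abs_nonneg (ρ - 1)]
    refine h4.trans_lt ?_
    norm_num
    linarith
  · exact hint.div_const _
  · exact (continuous_const.mul Complex.continuous_ofReal).intervalIntegrable _ _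

end H41.CC
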