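import Pool.Agent.H57.PC.Def2
import Pool.Agent.H38.BB.CLb
import Pool.Agent.H38.AS.SLim

/-!
# H41-CC-LSM: the twisted level one sum has an asymptotic formula (general `b`, class function `h`, `L0 = 0`)

`lsm`: as `twsw` (H57/LOW/Lof) with `b` general, the class function `h` in place of the indicator of the trivial classes. The refined sum is
`∑_T RW (1[S ⊆ T]) + O(Y (log Y)^(N - 3/2))` (`blk`), and `RW (1[S ⊆ T]) = MW` is a combination of the `UW` (`msm`), which have limits (`uw_lim`, `psi`).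
-/

set_option autoImplicit false

open scoped NumberField
open IsDedekindDomain Filter Topology
open scoped Classical

noncomputable section

namespace H41.CC

open H57.PC H63.MA H38.BB H38.AS

variable {K : Type} [Field K] [NumberField K] {p : ℕ} {ζ : K} {m N : ℕ}

/-- the enlarged class data -/
private def lsm_c (c : CR p m N) (θ : Fin N → Fin m → ZMod p) (hθ : ∀ i, dt (θ i) (c.x i) = 0) :
    CR p m N where
  x := c.x
  Θ i := c.Θ i ⊔ Submodule.span (ZMod p) {θ i}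
  self := by
    intro i ϑ hϑ
    rw [Submodule.mem_sup] at hϑ
    obtain ⟨y, hy, z, hz, rfl⟩ := hϑ
    rw [Submodule.mem_span_singleton] at hz
    obtain ⟨r, rfl⟩ := hz
    rw [aexp_dt_add, c.self i y hy, zero_add]
    have h : dt (r • θ i) (c.x i) = r * dt (θ i) (c.x i) := by
      simp only [dt, Pi.smul_apply, smul_eq_mul, Finset.mul_sum, mul_assoc]
    rw [h, hθ, mul_zero]

/-- the types in the coset of `θ` -/
private def lsm_Cos [NeZero p] (c : CR p m N) (θ : Fin N → Fin m → ZMod p)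
    (hθ : ∀ i, dt (θ i) (c.x i) = 0) : Finset (lsm_c c θ hθ).J :=
  Finset.univ.filter fun a => a.2.1 - θ a.1 ∈ c.Θ a.1

private theorem lsm_fib [NeZero p] (c : CR p m N) (θ : Fin N → Fin m → ZMod p)
    (hθ : ∀ i, dt (θ i) (c.x i) = 0) (i : Fin N) (Ψ : (Fin m → ZMod p) → ℂ) :
    ∑ a ∈ (lsm_Cos c θ hθ).filter (fun a => a.1 = i), Ψ a.2.1 =
      ∑ δ : {δ : Fin m → ZMod p // δ ∈ c.Θ i}, Ψ (θ i + δ.1) := by
  have h1 : (lsm_Cos c θ hθ).filter (fun a => a.1 = i) =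
      ((Finset.univ : Finset (lsm_c c θ hθ).J).filter (fun a => a.1 = i)).filter
        (fun a => a.2.1 - θ a.1 ∈ c.Θ a.1) := by
    unfold lsm_Cos
    rw [Finset.filter_filter, Finset.filter_filter]
    exact Finset.filter_congr fun a _ => and_comm
  rw [h1, Finset.sum_filter,
    csel_fib (lsm_c c θ hθ) i (fun a => if a.2.1 - θ a.1 ∈ c.Θ a.1 then Ψ a.2.1 else 0)]
  show ∑ ϑ : {ϑ : Fin m → ZMod p // ϑ ∈ (lsm_c c θ hθ).Θ i},
    (if ϑ.1 - θ i ∈ c.Θ i then Ψ ϑ.1 else 0) = _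
  rw [← Finset.sum_filter]
  have hmem : ∀ δ : {δ : Fin m → ZMod p // δ ∈ c.Θ i}, θ i + δ.1 ∈ (lsm_c c θ hθ).Θ i := by
    intro δ
    show θ i + δ.1 ∈ c.Θ i ⊔ Submodule.span (ZMod p) {θ i}
    rw [add_comm]
    exact Submodule.add_mem_sup δ.2 (Submodule.mem_span_singleton_self _)
  refine Finset.sum_bij' (fun ϑ hϑ => (⟨ϑ.1 - θ i, (Finset.mem_filter.1 hϑ).2⟩ :
      {δ : Fin m → ZMod p // δ ∈ c.Θ i}))
    (fun δ _ => (⟨θ i + δ.1, hmem δ⟩ : {ϑ : Fin m → ZMod p // ϑ ∈ (lsm_c c θ hθ).Θ i}))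
    ?_ ?_ ?_ ?_ ?_
  · intro ϑ _
    exact Finset.mem_univ _
  · intro δ _
    refine Finset.mem_filter.2 ⟨Finset.mem_univ _, ?_⟩
    show θ i + δ.1 - θ i ∈ c.Θ i
    rw [add_sub_cancel_left]
    exact δ.2
  · intro ϑ _
    apply Subtype.ext
    show θ i + (ϑ.1 - θ i) = ϑ.1
    rw [add_sub_cancel]
  · intro δ _
    apply Subtype.ext
    show θ i + δ.1 - θ i = δ.1
    rw [add_sub_cancel_left]
  · intro ϑ _
    show Ψ ϑ.1 = Ψ (θ i + (ϑ.1 - θ i))
    rw [add_sub_cancel]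

/-- the weight with the phase as a product over the coset -/
private theorem lsm_prod [NeZero p] (hp : p.Prime) (c : CR p m N) (θ : Fin N → Fin m → ZMod p)
    (hθ : ∀ i, dt (θ i) (c.x i) = 0) (f : Fin N → Finset (Pl K)) (F : Pl K → Fin m → ZMod p) :
    ((wtR c f F : ℝ) : ℂ) * ep p (∑ i, ∑ v ∈ f i, dt (θ i) (F v)) =
      ∏ i, ∏ v ∈ f i, ∑ a ∈ (lsm_Cos c θ hθ).filter (fun a => a.1 = i), ep p (dt a.2.1 (F v)) := by
  rw [csel_ep_sum hp, csel_wt hp, ← Finset.prod_mul_distrib]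
  refine Finset.prod_congr rfl fun i _ => ?_
  rw [csel_ep_sum hp, ← Finset.prod_mul_distrib]
  refine Finset.prod_congr rfl fun v _ => ?_
  rw [lsm_fib c θ hθ i (fun x => ep p (dt x (F v))), Finset.sum_mul]
  refine Finset.sum_congr rfl fun δ _ => ?_
  rw [aexp_dt_add, ep_add hp, mul_comm]

/-- the sum as a sum over the refined families -/
private theorem lsm_rw [NeZero p] (hp : p.Prime) (hζ : IsPrimitiveRoot ζ p)
    (D : RD K p ζ) (c : CR p m N) (b : Fin m → Kˣ) (θ : Fin N → Fin m → ZMod p)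
    (hθ : ∀ i, dt (θ i) (c.x i) = 0) (h : (Fin N → Fin D.r → ZMod p) → ℂ) (Y : ℝ) :
    (∑ f ∈ Fintype.piFinset (fun _ : Fin N => GF D.toRD0 Y),
        if Dj f ∧ ∏ i, nr (f i) ≤ Y ∧ SpR c b f then
          h (fun i => qf D.toRD0 (f i)) *
            (((wtR c f (fun v k => D.LL v (akR D.toRD0 c b f k)) : ℝ) : ℂ) *
            ep p (∑ i, ∑ v ∈ f i, dt (θ i) (fun k => D.LL v (akR D.toRD0 c b f k)))) else 0) =
      RW D.toRD0 (lsm_c c θ hθ) b ∅
        (fun S => if SpA (lsm_c c θ hθ) b S ∧ S ⊆ lsm_Cos c θ hθ then 1 else 0) h Y := by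
  have hcx : ∀ f : Fin N → Finset (Pl K), akR D.toRD0 (lsm_c c θ hθ) b f =
      akR D.toRD0 c b f := fun f => rfl
  have hsp : ∀ f : Fin N → Finset (Pl K), SpR (lsm_c c θ hθ) b f ↔ SpR c b f := fun f => Iff.rfl
  have key := csel_gen D (lsm_c c θ hθ) b ∅
    (fun S => if SpA (lsm_c c θ hθ) b S ∧ S ⊆ lsm_Cos c θ hθ then 1 else 0) h Y
    (fun f => h (fun i => qf D.toRD0 (f i)) *
      (if SpR c b f then
        ((wtR c f (fun v k => D.LL v (akR D.toRD0 c b f k)) : ℝ) : ℂ) *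
            ep p (∑ i, ∑ v ∈ f i, dt (θ i) (fun k => D.LL v (akR D.toRD0 c b f k)))
          else 0)) ?_
  · rw [← key]
    refine Finset.sum_congr rfl fun f hf => ?_
    have hdis : ∀ i, Disjoint (f i) (∅ : Finset (Pl K)) := fun i => Finset.disjoint_empty_right _
    by_cases h1 : Dj f ∧ ∏ i, nr (f i) ≤ Y
    · rw [if_pos (show Dj f ∧ (∀ i, Disjoint (f i) (∅ : Finset (Pl K))) ∧ ∏ i, nr (f i) ≤ Y from
        ⟨h1.1, hdis, h1.2⟩)]
      by_cases h2 : SpR c b f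
      · rw [if_pos ⟨h1.1, h1.2, h2⟩, if_pos h2]
      · rw [if_neg (fun h3 => h2 h3.2.2), if_neg h2, mul_zero]
    · rw [if_neg (fun h3 => h1 ⟨h3.1, h3.2.1⟩), if_neg (fun h3 => h1 ⟨h3.1, h3.2.2⟩)]
  · intro f hf hdj
    have hq : ∀ g : (lsm_c c θ hθ).J → Finset (Pl K), Dj g → unR (lsm_c c θ hθ) g = f →
        clR D.toRD0 (lsm_c c θ hθ) (fun a => qf D.toRD0 (g a)) = fun i => qf D.toRD0 (f i) := by
      intro g hg hgf
      funext i
      rw [← rx_qf D.toRD0 (lsm_c c θ hθ) g hg i, hgf]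
    by_cases h2 : SpR c b f
    · rw [if_pos h2, lsm_prod hp c θ hθ]
      have h3 := csel_inner hp hζ D (lsm_c c θ hθ) b (lsm_Cos c θ hθ) Y f hf hdj
      rw [hcx] at h3
      rw [h3, Finset.mul_sum]
      refine Finset.sum_congr rfl fun g hg => ?_
      rw [Finset.mem_filter] at hg
      obtain ⟨-, hg2, hg3⟩ := hg
      have hS : SpA (lsm_c c θ hθ) b (sup g) :=
        (sl_sp (lsm_c c θ hθ) b g).1 (by rw [hg3]; exact (hsp f).2 h2)
      rw [hq g hg2 hg3]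
      have h5 : (if SpA (lsm_c c θ hθ) b (sup g) ∧ sup g ⊆ lsm_Cos c θ hθ then
          (1 : ℂ) else 0) = if sup g ⊆ lsm_Cos c θ hθ then 1 else 0 := by
        by_cases h4 : sup g ⊆ lsm_Cos c θ hθ
        · rw [if_pos h4, if_pos ⟨hS, h4⟩]
        · rw [if_neg h4, if_neg (fun h5 => h4 h5.2)]
      rw [h5]
      exact mul_left_comm _ _ _
    · rw [if_neg h2, mul_zero]
      refine (Finset.sum_eq_zero fun g hg => ?_).symm
      rw [Finset.mem_filter] at hg
      obtain ⟨-, hg2, hg3⟩ := hg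
      rw [if_neg (fun h4 => h2 ((hsp f).1 (by
        rw [← hg3]
        exact (sl_sp (lsm_c c θ hθ) b g).2 h4.1))), zero_mul]

/-- full supports -/
private theorem lsm_full [NeZero p] (c : CR p m N) (hc : ∀ δ ∈ c.L0, δ = 0) (S : Finset c.J)
    (hS : Full c S) (T : Finset c.J) (hT : T ∈ JJ c) (hST : S ⊆ T) : S = T := by
  rw [JJ, Finset.mem_image] at hT
  obtain ⟨ϑ, hϑ, rfl⟩ := hT
  refine Finset.Subset.antisymm hST ?_
  intro a ha
  obtain ⟨Lg, hLS, hcl, _, _⟩ := hS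
  obtain ⟨a', ha', h1⟩ := hcl a.1
  have h2 := hST (hLS ha')
  rw [Jt, Finset.mem_filter] at h2 ha
  have h3 := sub_eq_zero.1 (hc _ h2.2)
  have h4 := sub_eq_zero.1 (hc _ ha.2)
  have h5 : a' = a := by
    obtain ⟨i, y⟩ := a
    obtain ⟨i', y'⟩ := a'
    simp only at h1 h3 h4
    subst h1
    have h6 : y' = y := Subtype.ext (h3.trans h4.symm)
    rw [h6]
  rw [← h5]
  exact hLS ha'

/-- the sum of level one, with phases, has an asymptotic formula -/
theorem lsm [NeZero p] (hp : p.Prime) (hp2 : MOne p K) (hζ : IsPrimitiveRoot ζ p)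
    (D : RD K p ζ) (c : CR p m N) (hN : 1 ≤ N) (hc : ∀ δ ∈ c.L0, δ = 0)
    (b : Fin m → Kˣ) (hb : BS2 D.toRD0 b ∅)
    (θ : Fin N → Fin m → ZMod p) (hθ : ∀ i, dt (θ i) (c.x i) = 0)
    (h : (Fin N → Fin D.r → ZMod p) → ℂ) (hh : ∀ q, ‖h q‖ ≤ 1) :
    ∃ l : ℂ, Tendsto (fun Y : ℝ => (∑ f ∈ Fintype.piFinset (fun _ : Fin N => GF D.toRD0 Y),
        if Dj f ∧ ∏ i, nr (f i) ≤ Y ∧ SpR c b f then
          h (fun i => qf D.toRD0 (f i)) *
            (((wtR c f (fun v k => D.LL v (akR D.toRD0 c b f k)) : ℝ) : ℂ) *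
            ep p (∑ i, ∑ v ∈ f i, dt (θ i) (fun k => D.LL v (akR D.toRD0 c b f k)))) else 0) /
        ((Y * Real.log Y ^ (N - 1) : ℝ) : ℂ)) atTop (𝓝 l) := by
  obtain ⟨C, X₀, hC, hX₀, hblk⟩ := blk hp hp2 hζ D (lsm_c c θ hθ) hN 0
  have hc' : ∀ δ ∈ (lsm_c c θ hθ).L0, δ = 0 := hc
  have h0 : Sp0 (lsm_c c θ hθ) b := fun δ hδ hne => absurd (hc' δ hδ) hne
  obtain ⟨FF, hFF⟩ : ∃ FF : Finset (Finset (lsm_c c θ hθ).J),
      FF = (JJ (lsm_c c θ hθ)).filter (fun T => T ⊆ lsm_Cos c θ hθ) := ⟨_, rfl⟩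
  have hFmem : ∀ T, T ∈ FF ↔ T ∈ JJ (lsm_c c θ hθ) ∧ T ⊆ lsm_Cos c θ hθ := by
    intro T
    rw [hFF, Finset.mem_filter]
  -- the main terms
  obtain ⟨u, hu⟩ := uw_lim hp hp2 hζ D (lsm_c c θ hθ) hN b hb h0
  have hψ : ∀ ψ : Fin N → Fin D.r → ZMod p, ∃ u : ℂ,
      Tendsto (fun Y : ℝ => UW D.toRD0 (lsm_c c θ hθ) b ψ Y / ((Y * Real.log Y ^ (N - 1) : ℝ) : ℂ))
        atTop (𝓝 u) := by
    intro ψ
    rcases psi hp hζ D (lsm_c c θ hθ) hN b hb h0 ψ with h1 | ⟨C, X₀, -, -, h1⟩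
    · exact ⟨u, by simpa only [h1] using hu⟩
    · exact ⟨0, slim_small N C X₀ _ h1⟩
  choose uψ huψ using hψ
  have hT : ∀ T ∈ FF, ∃ u : ℂ, Tendsto (fun Y : ℝ =>
      RW D.toRD0 (lsm_c c θ hθ) b ∅ (fun S => if S ⊆ T then 1 else 0) h Y /
        ((Y * Real.log Y ^ (N - 1) : ℝ) : ℂ)) atTop (𝓝 u) := by
    intro T hT
    have hT' := ((hFmem T).1 hT).1
    unfold JJ at hT'
    rw [Finset.mem_image] at hT'
    obtain ⟨ϑ, hϑ, rfl⟩ := hT'
    have hϑ' := (Finset.mem_filter.1 hϑ).2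
    obtain ⟨γ, hγ⟩ := msm hp hp2 hζ D (lsm_c c θ hθ) b hb ϑ hϑ' h
    refine ⟨∑ ψ, γ ψ * uψ ψ, ?_⟩
    have h2 := tendsto_finsetSum (Finset.univ : Finset (Fin N → Fin D.r → ZMod p))
      fun ψ _ => (huψ ψ).const_mul (γ ψ)
    refine h2.congr fun Y => ?_
    rw [← mw_rw hp hζ D (lsm_c c θ hθ) b ∅ ϑ hϑ'.1, hγ Y, Finset.sum_div]
    exact Finset.sum_congr rfl fun ψ _ => by rw [mul_div_assoc]
  choose! uT huT using hT
  set M : ℝ := 1 + (FF.card : ℝ) with hM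
  have hM0 : 0 < M := by positivity
  have hMc : ((M : ℝ) : ℂ) ≠ 0 := by exact_mod_cast hM0.ne'
  set ω : Finset (lsm_c c θ hθ).J → ℂ := fun S =>
    ((if SpA (lsm_c c θ hθ) b S ∧ S ⊆ lsm_Cos c θ hθ then (1 : ℂ) else 0) -
    ∑ T ∈ FF, if S ⊆ T then (1 : ℂ) else 0) / ((M : ℝ) : ℂ) with hω
  have hcard : ∀ S : Finset (lsm_c c θ hθ).J, ∑ T ∈ FF, (if S ⊆ T then (1 : ℂ) else 0) =
      ((FF.filter fun T => S ⊆ T).card : ℂ) := by
    intro S
    rw [← Finset.sum_filter, Finset.sum_const, nsmul_eq_mul, mul_one]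
  have hsmall : Tendsto (fun Y : ℝ => RW D.toRD0 (lsm_c c θ hθ) b ∅ ω h Y /
      ((Y * Real.log Y ^ (N - 1) : ℝ) : ℂ)) atTop (𝓝 0) := by
    refine slim_small N C X₀ _ fun Y hY => ?_
    refine hblk Y hY b ∅ hb (by simp [nr]) ω ?_ ?_ ?_ h hh
    · intro S
      simp only [hω]
      rw [norm_div, Complex.norm_real, Real.norm_of_nonneg hM0.le, div_le_one hM0, hcard]
      refine (norm_sub_le _ _).trans ?_
      rw [Complex.norm_natCast, hM]
      refine add_le_add ?_ ?_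
      · split_ifs
        · rw [norm_one]
        · rw [norm_zero]
          exact zero_le_one
      · exact_mod_cast Finset.card_le_card (Finset.filter_subset _ _)
    · intro S hS a ha a' ha' h11 hne horth
      have hδ : (lsm_c c θ hθ).pd.θ a - (lsm_c c θ hθ).pd.θ a' ≠ 0 := by
        intro h2
        apply hne
        have h3 : a.2.1 = a'.2.1 := sub_eq_zero.1 h2
        obtain ⟨i, y⟩ := a
        obtain ⟨i', y'⟩ := a'
        simp only at h11
        subst h11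
        have h4 : y = y' := Subtype.ext h3
        rw [h4]
      by_cases h2 : SpA (lsm_c c θ hθ) b S ∧ S ⊆ lsm_Cos c θ hθ
      · rcases h2.1 _ hδ with ⟨a'', ha'', h3⟩ | h3
        · exact absurd (horth a'' ha'') h3
        · exact h3
      · by_cases h3 : ∃ T ∈ FF, S ⊆ T
        · obtain ⟨T, hT, hST⟩ := h3
          have hT' := ((hFmem T).1 hT).1
          rw [JJ, Finset.mem_image] at hT'
          obtain ⟨ϑ, hϑ, rfl⟩ := hT'
          exfalso
          apply hδ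
          have h4 := hST ha
          have h5 := hST ha'
          rw [Jt, Finset.mem_filter] at h4 h5
          have h6 := sub_eq_zero.1 (hc' _ h4.2)
          have h7 := sub_eq_zero.1 (hc' _ h5.2)
          have h8 : ϑ a.1 = ϑ a'.1 := congrArg ϑ h11
          show a.2.1 - a'.2.1 = 0
          rw [h6, h7, h8, sub_self]
        · exfalso
          apply hS
          simp only [hω]
          rw [if_neg h2, Finset.sum_eq_zero, sub_zero, zero_div]
          intro T hT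
          rw [if_neg (fun h4 => h3 ⟨T, hT, h4⟩)]
    · intro S hS
      obtain ⟨h2, h3⟩ := dec_full (lsm_c c θ hθ) b h0 S hS
      rw [Finset.card_eq_one] at h3
      obtain ⟨T0, hT0⟩ := h3
      have hT0m : T0 ∈ JJ (lsm_c c θ hθ) ∧ S ⊆ T0 := by
        have : T0 ∈ (JJ (lsm_c c θ hθ)).filter (fun T => S ⊆ T) := by
          rw [hT0]
          exact Finset.mem_singleton_self _
        exact Finset.mem_filter.1 this
      have hST0 : S = T0 := lsm_full (lsm_c c θ hθ) hc' S hS T0 hT0m.1 hT0m.2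
      have hfil : ∀ T, T ∈ FF.filter (fun T => S ⊆ T) ↔ T = T0 ∧ S ⊆ lsm_Cos c θ hθ := by
        intro T
        rw [Finset.mem_filter, hFmem]
        constructor
        · rintro ⟨⟨h4, h5⟩, h6⟩
          have h7 : T ∈ (JJ (lsm_c c θ hθ)).filter (fun T => S ⊆ T) := Finset.mem_filter.2 ⟨h4, h6⟩
          rw [hT0, Finset.mem_singleton] at h7
          exact ⟨h7, h6.trans h5⟩
        · rintro ⟨rfl, h5⟩
          refine ⟨⟨hT0m.1, ?_⟩, hT0m.2⟩
          rw [← hST0]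
          exact h5
      simp only [hω]
      rw [hcard]
      by_cases h4 : S ⊆ lsm_Cos c θ hθ
      · have h5 : FF.filter (fun T => S ⊆ T) = {T0} := by
          ext T
          rw [hfil, Finset.mem_singleton]
          exact ⟨fun h => h.1, fun h => ⟨h, h4⟩⟩
        rw [if_pos ⟨h2, h4⟩, h5, Finset.card_singleton, Nat.cast_one, sub_self, zero_div]
      · have h5 : FF.filter (fun T => S ⊆ T) = ∅ := by
          ext T
          rw [hfil]
          exact ⟨fun h => absurd h.2 h4, fun h => absurd h (Finset.notMem_empty T)⟩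
        rw [if_neg (fun h6 => h4 h6.2), h5, Finset.card_empty, Nat.cast_zero, sub_self, zero_div]
  have h4 := tendsto_finsetSum FF fun T hT => huT T hT
  have h5 := h4.add (hsmall.const_mul ((M : ℝ) : ℂ))
  rw [mul_zero, add_zero] at h5
  refine ⟨∑ T ∈ FF, uT T, h5.congr fun Y => ?_⟩
  have hlin := dec_rw_lin D.toRD0 (lsm_c c θ hθ) b ∅ FF
    (fun S => if SpA (lsm_c c θ hθ) b S ∧ S ⊆ lsm_Cos c θ hθ then 1 else 0)
    (fun T S => if S ⊆ T then 1 else 0) h Y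
    ((M : ℝ) : ℂ) ω (by
      intro S
      simp only [hω]
      rw [mul_div_cancel₀ _ hMc])
  rw [lsm_rw hp hζ D c b θ hθ h Y, ← Finset.sum_div, ← mul_div_assoc, ← add_div, ← hlin]
  congr 1
  ring

end H41.CC
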