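import Pool.Agent.H41.CC.Blb
import Pool.Agent.H57.LS.Mlw
import Pool.Agent.H38.AS.ESml
import Pool.Agent.H77.PT.Def

/-!
# H41-CC-NBG: at level one the families without a large prime in some class are negligible

`bem`: the families with `f i₀ = ∅` save one logarithm. `nbg`: the families with `¬ Big (thr Y 1) f` are negligible (`bem`, `blb`).
-/

set_option autoImplicit false

open scoped NumberField
open IsDedekindDomain Filter Topology
open scoped Classical

noncomputable section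

namespace H41.CC

open H57.PC H63.MA H38.BB H38.AS H57.LS H77.PT

variable {K : Type} [Field K] [NumberField K] {p : ℕ} {ζ : K} {m N : ℕ}

/-! ### a class which does not occur -/

private theorem bem_ak (D : RD0 K p ζ) (c : CR p m (N + 1)) (i₀ : Fin (N + 1))
    (b : Fin m → Kˣ) (f : Fin (N + 1) → Finset (Pl K)) (hf : f i₀ = ∅) (k : Fin m) :
    akR D c b f k = akR D (rmc c i₀) b (fun j => f (i₀.succAbove j)) k := by
  unfold akR
  rw [Fin.prod_univ_succAbove _ i₀, hf, Finset.prod_empty, one_mul]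
  rfl

private theorem bem_sp (c : CR p m (N + 1)) (i₀ : Fin (N + 1))
    (b : Fin m → Kˣ) (f : Fin (N + 1) → Finset (Pl K)) (hf : f i₀ = ∅) :
    SpR c b f ↔ SpR (rmc c i₀) b (fun j => f (i₀.succAbove j)) := by
  unfold SpR
  refine forall_congr' fun θ => forall_congr' fun _ => or_congr_left ?_
  constructor
  · rintro ⟨i, h1, h2⟩
    have hi : i ≠ i₀ := by
      rintro rfl
      exact h1 hf
    obtain ⟨j, rfl⟩ := Fin.exists_succAbove_eq hi
    exact ⟨j, h1, h2⟩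
  · rintro ⟨j, h1, h2⟩
    exact ⟨i₀.succAbove j, h1, h2⟩

private theorem bem_wt (c : CR p m (N + 1)) (i₀ : Fin (N + 1))
    (f : Fin (N + 1) → Finset (Pl K)) (hf : f i₀ = ∅) (F : Pl K → Fin m → ZMod p) :
    wtR c f F = wtR (rmc c i₀) (fun j => f (i₀.succAbove j)) F := by
  unfold wtR
  rw [Fin.prod_univ_succAbove _ i₀, hf, Finset.prod_empty, one_mul]
  rfl

private theorem bem_dj {i₀ : Fin (N + 1)} {f : Fin (N + 1) → Finset (Pl K)} (h : Dj f) :
    Dj (fun j => f (i₀.succAbove j)) := fun _ _ ha =>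
  h _ _ (fun h2 => ha (Fin.succAbove_right_injective h2))

private theorem bem_sw [NeZero p] (D : RD0 K p ζ) (c : CR p m (N + 1)) (i₀ : Fin (N + 1))
    (b : Fin m → Kˣ) (Y : ℝ) :
    (∑ f ∈ Fintype.piFinset (fun _ : Fin (N + 1) => GF D Y),
        if (Dj f ∧ ∏ i, nr (f i) ≤ Y ∧ SpR c b f) ∧ f i₀ = ∅ then
          wtR c f (fun v k => D.LL v (akR D c b f k)) else 0) ≤
      SW D (rmc c i₀) b ∅ (fun _ => 1) Y := by
  unfold SW
  rw [esm_split (GF D Y) i₀]
  have key : ∀ n ∈ GF D Y,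
      (∑ f' ∈ Fintype.piFinset (fun _ : Fin N => GF D Y),
        (if (Dj (Fin.insertNth (α := fun _ => Finset (Pl K)) i₀ n f') ∧
            ∏ i, nr (Fin.insertNth (α := fun _ => Finset (Pl K)) i₀ n f' i) ≤ Y ∧
            SpR c b (Fin.insertNth (α := fun _ => Finset (Pl K)) i₀ n f')) ∧
            Fin.insertNth (α := fun _ => Finset (Pl K)) i₀ n f' i₀ = ∅ then
          wtR c (Fin.insertNth (α := fun _ => Finset (Pl K)) i₀ n f')
            (fun v k => D.LL v (akR D c b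
              (Fin.insertNth (α := fun _ => Finset (Pl K)) i₀ n f') k)) else 0)) ≤
      if n = ∅ then SW D (rmc c i₀) b ∅ (fun _ => 1) Y else 0 := by
    intro n hn
    split_ifs with h0
    · unfold SW
      refine Finset.sum_le_sum fun f' hf' => ?_
      subst h0
      have e0 : Fin.insertNth (α := fun _ => Finset (Pl K)) i₀ ∅ f' i₀ = ∅ := by simp
      by_cases h1 : (Dj (Fin.insertNth (α := fun _ => Finset (Pl K)) i₀ ∅ f') ∧
            ∏ i, nr (Fin.insertNth (α := fun _ => Finset (Pl K)) i₀ ∅ f' i) ≤ Y ∧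
            SpR c b (Fin.insertNth (α := fun _ => Finset (Pl K)) i₀ ∅ f')) ∧
            Fin.insertNth (α := fun _ => Finset (Pl K)) i₀ ∅ f' i₀ = ∅
      · obtain ⟨⟨h2, h3, h4⟩, h5⟩ := h1
        rw [if_pos ⟨⟨h2, h3, h4⟩, h5⟩]
        have h6 := (bem_sp c i₀ b _ e0).1 h4
        have h7 := (bem_dj (i₀ := i₀) h2)
        simp only [Fin.insertNth_apply_succAbove] at h6 h7
        rw [esm_prod] at h3
        have hnr : nr (∅ : Finset (Pl K)) = 1 := by simp [nr]
        rw [hnr, one_mul] at h3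
        rw [if_pos ⟨h7, fun i => Finset.disjoint_empty_right _, h3, h6⟩, one_mul,
          bem_wt c i₀ _ e0]
        simp only [bem_ak D c i₀ b _ e0, Fin.insertNth_apply_succAbove]
        exact le_rfl
      · rw [if_neg h1]
        split_ifs
        · rw [one_mul]
          exact esm_wt0 _ _ _
        · exact le_rfl
    · refine Finset.sum_nonpos fun f' _ => ?_
      rw [if_neg]
      rintro ⟨-, h4⟩
      rw [Fin.insertNth_apply_same] at h4
      exact h0 h4
  refine (Finset.sum_le_sum key).trans ?_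
  rw [Finset.sum_ite_eq']
  split_ifs
  · exact le_rfl
  · refine Finset.sum_nonneg fun f _ => ?_
    split_ifs
    · rw [one_mul]
      exact esm_wt0 _ _ _
    · exact le_rfl

/-- the families with `f i₀ = ∅` save one logarithm -/
theorem bem [NeZero p] (hp : p.Prime) (hp2 : MOne p K) (hζ : IsPrimitiveRoot ζ p)
    (D : RD K p ζ) (c : CR p m (N + 1)) (i₀ : Fin (N + 1)) :
    ∃ C : ℝ, 0 < C ∧ ∀ b : Fin m → Kˣ, BS2 D.toRD0 b ∅ → ∀ Y : ℝ, 1 ≤ Y →
      (∑ f ∈ Fintype.piFinset (fun _ : Fin (N + 1) => GF D.toRD0 Y),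
        if (Dj f ∧ ∏ i, nr (f i) ≤ Y ∧ SpR c b f) ∧ f i₀ = ∅ then
          wtR c f (fun v k => D.LL v (akR D.toRD0 c b f k)) else 0) ≤
        C * Y * (1 + Real.log Y) ^ N / (1 + Real.log Y) := by
  rcases Nat.eq_zero_or_pos N with rfl | hN
  · refine ⟨1, one_pos, fun b hb Y hY => (bem_sw D.toRD0 c i₀ b Y).trans ?_⟩
    have hl := Real.log_nonneg hY
    have h1 : SW D.toRD0 (rmc c i₀) b ∅ (fun _ => 1) Y ≤ 1 := by
      unfold SW
      rw [Fintype.piFinset_of_isEmpty, Finset.sum_eq_single (fun i => i.elim0)]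
      · split_ifs
        · rw [one_mul]
          unfold wtR
          rw [Fin.prod_univ_zero]
        · exact zero_le_one
      · intro f _ hf
        exact absurd (Subsingleton.elim _ _) hf
      · intro h
        exact absurd (Finset.mem_univ _) h
    refine h1.trans ?_
    rw [pow_zero, mul_one, one_mul, one_le_div (by linarith)]
    have := Real.log_le_sub_one_of_pos (by linarith : (0 : ℝ) < Y)
    linarith
  · obtain ⟨C, hC, h⟩ := ub hp hp2 hζ D (rmc c i₀) hN 1 one_pos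
    refine ⟨C, hC, fun b hb Y hY => (bem_sw D.toRD0 c i₀ b Y).trans ?_⟩
    have hl := Real.log_nonneg hY
    have h1 := h b ∅ hb Y hY
    have hnr0 : nr (∅ : Finset (Pl K)) = 1 := by simp [nr]
    rw [hnr0, Real.one_rpow, mul_one] at h1
    refine h1.trans (le_of_eq ?_)
    obtain ⟨M, rfl⟩ : ∃ M, N = M + 1 := ⟨N - 1, by omega⟩
    have h2 : 0 < 1 + Real.log Y := by linarith
    rw [Nat.add_sub_cancel, pow_succ]
    field_simp

/-- the same for general `N` -/
theorem bem' [NeZero p] (hp : p.Prime) (hp2 : MOne p K) (hζ : IsPrimitiveRoot ζ p)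
    (D : RD K p ζ) (c : CR p m N) (i₀ : Fin N) :
    ∃ C : ℝ, 0 < C ∧ ∀ b : Fin m → Kˣ, BS2 D.toRD0 b ∅ → ∀ Y : ℝ, 1 ≤ Y →
      (∑ f ∈ Fintype.piFinset (fun _ : Fin N => GF D.toRD0 Y),
        if (Dj f ∧ ∏ i, nr (f i) ≤ Y ∧ SpR c b f) ∧ f i₀ = ∅ then
          wtR c f (fun v k => D.LL v (akR D.toRD0 c b f k)) else 0) ≤
        C * Y * (1 + Real.log Y) ^ (N - 1) / (1 + Real.log Y) := by
  obtain ⟨M, rfl⟩ : ∃ M, N = M + 1 := ⟨N - 1, by have := i₀.pos; omega⟩
  exact bem hp hp2 hζ D c i₀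

/-- the families without large primes in some class are negligible -/
theorem nbg [NeZero p] (hp : p.Prime) (hp2 : MOne p K) (hζ : IsPrimitiveRoot ζ p)
    (D : RD K p ζ) (c : CR p m N) (hN : 1 ≤ N) (hc : ∀ δ ∈ c.L0, δ = 0) (ε : ℝ) (hε : 0 < ε) :
    ∃ Y₀ : ℝ, 3 ≤ Y₀ ∧ ∀ b : Fin m → Kˣ, BS2 D.toRD0 b ∅ → ∀ Y : ℝ, Y₀ ≤ Y →
      (∑ f ∈ Fintype.piFinset (fun _ : Fin N => GF D.toRD0 (2 * Y)),
        if (Dj f ∧ ∏ i, nr (f i) ≤ 2 * Y ∧ SpR c b f) ∧ ¬ Big (thr Y 1) f then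
          wtR c f (fun v k => D.LL v (akR D.toRD0 c b f k)) else 0) ≤
        ε * Y * Real.log Y ^ (N - 1) := by
  obtain ⟨C, X₁, A, hC, hX₁, hblb⟩ := blb hp hζ D c hN hc
  have h1 := fun i₀ : Fin N => bem' hp hp2 hζ D c i₀
  choose Ce hCe hbem using h1
  obtain ⟨S, hS⟩ : ∃ S : ℝ, S = ∑ i₀, Ce i₀ := ⟨_, rfl⟩
  have hS0 : 0 ≤ S := by rw [hS]; exact Finset.sum_nonneg fun i _ => (hCe i).le
  have hN0 : (0 : ℝ) < N := by exact_mod_cast hN
  have hδ : 0 < ε / (2 * (N * (C * 2 * 2 ^ (N - 1)))) := by positivity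
  obtain ⟨X₂, hX₂⟩ := Filter.eventually_atTop.1 (mlw_ev (5 * 1 + 3) A hδ)
  have ev3 : ∀ᶠ Y : ℝ in Filter.atTop, S * 2 * 3 ^ (N - 1) * 2 / ε ≤ Real.log Y :=
    Real.tendsto_log_atTop.eventually (Filter.eventually_ge_atTop _)
  obtain ⟨X₃, hX₃⟩ := Filter.eventually_atTop.1 ev3
  refine ⟨max (max X₁ X₂) X₃, hX₁.trans ((le_max_left _ _).trans (le_max_left _ _)),
    fun b hb Y hY => ?_⟩
  have hYX : X₁ ≤ Y := ((le_max_left _ _).trans (le_max_left _ _)).trans hY
  obtain ⟨h2, hT2, hTA⟩ := hX₂ Y (((le_max_right _ _).trans (le_max_left _ _)).trans hY)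
  have hY3' := hX₃ Y ((le_max_right _ _).trans hY)
  have hY3 : 3 ≤ Y := hX₁.trans hYX
  have hY0 : (0 : ℝ) < Y := by linarith
  obtain ⟨ll, hll⟩ : ∃ ll, ll = Real.log (Real.log Y) := ⟨_, rfl⟩
  rw [← hll] at h2 hT2 hTA
  have hL : 0 < Real.log Y := Real.log_pos (by linarith)
  have hL1 : 1 ≤ Real.log Y := by
    rw [Real.le_log_iff_exp_le (by linarith)]
    linarith [Real.exp_one_lt_d9]
  have hL2 : Real.log Y ≤ Real.log (2 * Y) := Real.log_le_log hY0 (by linarith)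
  have hL3 : Real.log (2 * Y) ≤ 2 * Real.log Y := by
    rw [Real.log_mul two_ne_zero hY0.ne']
    have : Real.log 2 ≤ Real.log Y := Real.log_le_log (by norm_num) (by linarith)
    linarith
  obtain ⟨T, hT⟩ : ∃ T : ℝ, T = thr Y 1 := ⟨_, rfl⟩
  have hlogT : Real.log T = ll ^ (5 * 1 + 3) := by
    rw [hT]
    unfold thr
    rw [Real.log_exp, hll]
  rw [← hlogT] at hT2 hTA
  have hll2 : 2 ≤ ll ^ (5 * 1 + 3) := by
    calc (2 : ℝ) ≤ ll := h2
      _ ≤ ll ^ (5 * 1 + 3) := le_self_pow₀ (by linarith) (by omega)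
  have hT3 : 3 ≤ T := by
    have h3 := Real.add_one_le_exp (ll ^ (5 * 1 + 3))
    have h4 : T = Real.exp (ll ^ (5 * 1 + 3)) := by
      rw [hT]
      unfold thr
      rw [hll]
    linarith
  rw [← hT]
  have hbj : ∀ j : Fin N, _ := fun j => hblb b hb (2 * Y) (by linarith) T hT3 (hT2.trans hL2) j
  have hej : ∀ j : Fin N, _ := fun j => hbem j b hb (2 * Y) (by linarith)
  -- the splitting
  have hmain : (∑ f ∈ Fintype.piFinset (fun _ : Fin N => GF D.toRD0 (2 * Y)),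
        if (Dj f ∧ ∏ i, nr (f i) ≤ 2 * Y ∧ SpR c b f) ∧ ¬ Big T f then
          wtR c f (fun v k => D.LL v (akR D.toRD0 c b f k)) else 0) ≤
      (∑ j : Fin N, ∑ f ∈ Fintype.piFinset (fun _ : Fin N => GF D.toRD0 (2 * Y)),
        if Dj f ∧ ∏ i, nr (f i) ≤ 2 * Y ∧ (∀ i, f i ≠ ∅) ∧ Smo T (f j) then
          wtR c f (fun v k => D.LL v (akR D.toRD0 c b f k)) else 0) +
      ∑ j : Fin N, ∑ f ∈ Fintype.piFinset (fun _ : Fin N => GF D.toRD0 (2 * Y)),
        if (Dj f ∧ ∏ i, nr (f i) ≤ 2 * Y ∧ SpR c b f) ∧ f j = ∅ then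
          wtR c f (fun v k => D.LL v (akR D.toRD0 c b f k)) else 0 := by
    rw [Finset.sum_comm, Finset.sum_comm (s := (Finset.univ : Finset (Fin N))),
      ← Finset.sum_add_distrib]
    refine Finset.sum_le_sum fun f _ => ?_
    have hw : 0 ≤ wtR c f (fun v k => D.LL v (akR D.toRD0 c b f k)) := esm_wt0 _ _ _
    have hn1 : ∀ j : Fin N, 0 ≤ (if Dj f ∧ ∏ i, nr (f i) ≤ 2 * Y ∧ (∀ i, f i ≠ ∅) ∧
        Smo T (f j) then wtR c f (fun v k => D.LL v (akR D.toRD0 c b f k)) else 0) := by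
      intro j
      split_ifs
      · exact hw
      · exact le_rfl
    have hn2 : ∀ j : Fin N, 0 ≤ (if (Dj f ∧ ∏ i, nr (f i) ≤ 2 * Y ∧ SpR c b f) ∧ f j = ∅ then
        wtR c f (fun v k => D.LL v (akR D.toRD0 c b f k)) else 0) := by
      intro j
      split_ifs
      · exact hw
      · exact le_rfl
    split_ifs with h4
    · obtain ⟨⟨h5, h6, h7⟩, h8⟩ := h4
      by_cases h9 : ∀ i, f i ≠ ∅
      · unfold Big at h8
        push Not at h8
        obtain ⟨j, hj⟩ := h8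
        have h10 := Finset.single_le_sum (f := fun j : Fin N =>
          if Dj f ∧ ∏ i, nr (f i) ≤ 2 * Y ∧ (∀ i, f i ≠ ∅) ∧ Smo T (f j) then
            wtR c f (fun v k => D.LL v (akR D.toRD0 c b f k)) else 0)
          (fun j _ => hn1 j) (Finset.mem_univ j)
        rw [if_pos (show Dj f ∧ ∏ i, nr (f i) ≤ 2 * Y ∧ (∀ i, f i ≠ ∅) ∧ Smo T (f j) from
          ⟨h5, h6, h9, hj⟩)] at h10
        exact h10.trans (le_add_of_nonneg_right (Finset.sum_nonneg fun j _ => hn2 j))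
      · push Not at h9
        obtain ⟨j, hj⟩ := h9
        have h10 := Finset.single_le_sum (f := fun j : Fin N =>
          if (Dj f ∧ ∏ i, nr (f i) ≤ 2 * Y ∧ SpR c b f) ∧ f j = ∅ then
            wtR c f (fun v k => D.LL v (akR D.toRD0 c b f k)) else 0)
          (fun j _ => hn2 j) (Finset.mem_univ j)
        rw [if_pos (show (Dj f ∧ ∏ i, nr (f i) ≤ 2 * Y ∧ SpR c b f) ∧ f j = ∅ from
          ⟨⟨h5, h6, h7⟩, hj⟩)] at h10
        exact h10.trans (le_add_of_nonneg_left (Finset.sum_nonneg fun j _ => hn1 j))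
    · exact add_nonneg (Finset.sum_nonneg fun j _ => hn1 j) (Finset.sum_nonneg fun j _ => hn2 j)
  refine hmain.trans ?_
  have hsumA := Finset.sum_le_sum fun (j : Fin N) (_ : j ∈ Finset.univ) => hbj j
  have hsumB := Finset.sum_le_sum fun (j : Fin N) (_ : j ∈ Finset.univ) => hej j
  rw [Finset.sum_const, Finset.card_univ, Fintype.card_fin, nsmul_eq_mul] at hsumA
  rw [← Finset.sum_div, ← Finset.sum_mul, ← Finset.sum_mul, ← hS] at hsumB
  have hrp : Real.log Y ^ (-(1 / 2) : ℝ) * Real.log Y ^ (1 / 2 : ℝ) = 1 := by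
    rw [← Real.rpow_add hL]
    norm_num
  have hrp0 : 0 < Real.log Y ^ (-(1 / 2) : ℝ) := Real.rpow_pos_of_pos hL _
  have hlp : Real.log (2 * Y) ^ (N - 1) ≤ 2 ^ (N - 1) * Real.log Y ^ (N - 1) := by
    rw [← mul_pow]
    exact pow_le_pow_left₀ (by linarith) hL3 _
  have hlr : Real.log (2 * Y) ^ (-(1 / 2) : ℝ) ≤ Real.log Y ^ (-(1 / 2) : ℝ) :=
    Real.rpow_le_rpow_of_nonpos hL hL2 (by norm_num)
  have hlogT0 : 0 ≤ Real.log T ^ A := by
    rw [hlogT]
    have : 0 ≤ ll ^ (5 * 1 + 3) := by linarith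
    positivity
  have hln0 : 0 ≤ Real.log Y ^ (N - 1) := by positivity
  have hA1 : (N : ℝ) * (C * (2 * Y) * Real.log (2 * Y) ^ (N - 1) *
      Real.log (2 * Y) ^ (-(1 / 2) : ℝ) * Real.log T ^ A) ≤
      ε / 2 * Y * Real.log Y ^ (N - 1) := by
    have h11 : Real.log Y ^ (-(1 / 2) : ℝ) * Real.log T ^ A ≤
        ε / (2 * (N * (C * 2 * 2 ^ (N - 1)))) := by
      calc Real.log Y ^ (-(1 / 2) : ℝ) * Real.log T ^ A ≤ Real.log Y ^ (-(1 / 2) : ℝ) *
          (ε / (2 * (N * (C * 2 * 2 ^ (N - 1)))) * Real.log Y ^ (1 / 2 : ℝ)) :=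
            mul_le_mul_of_nonneg_left hTA hrp0.le
        _ = ε / (2 * (N * (C * 2 * 2 ^ (N - 1)))) *
            (Real.log Y ^ (-(1 / 2) : ℝ) * Real.log Y ^ (1 / 2 : ℝ)) := by ring
        _ = _ := by rw [hrp, mul_one]
    calc (N : ℝ) * (C * (2 * Y) * Real.log (2 * Y) ^ (N - 1) *
          Real.log (2 * Y) ^ (-(1 / 2) : ℝ) * Real.log T ^ A) ≤
        (N : ℝ) * (C * (2 * Y) * (2 ^ (N - 1) * Real.log Y ^ (N - 1)) *
          Real.log Y ^ (-(1 / 2) : ℝ) * Real.log T ^ A) := by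
          have hx : 0 ≤ Real.log (2 * Y) ^ (-(1 / 2) : ℝ) :=
            Real.rpow_nonneg (by linarith) _
          gcongr
      _ = (N : ℝ) * (C * 2 * 2 ^ (N - 1)) * (Real.log Y ^ (-(1 / 2) : ℝ) * Real.log T ^ A) *
          (Y * Real.log Y ^ (N - 1)) := by ring
      _ ≤ (N : ℝ) * (C * 2 * 2 ^ (N - 1)) * (ε / (2 * (N * (C * 2 * 2 ^ (N - 1))))) *
          (Y * Real.log Y ^ (N - 1)) := by
          refine mul_le_mul_of_nonneg_right ?_ (by positivity)
          exact mul_le_mul_of_nonneg_left h11 (by positivity)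
      _ = _ := by
          field_simp
  have hB1 : S * (2 * Y) * (1 + Real.log (2 * Y)) ^ (N - 1) / (1 + Real.log (2 * Y)) ≤
      ε / 2 * Y * Real.log Y ^ (N - 1) := by
    have h12 : (1 + Real.log (2 * Y)) ^ (N - 1) ≤ 3 ^ (N - 1) * Real.log Y ^ (N - 1) := by
      rw [← mul_pow]
      exact pow_le_pow_left₀ (by linarith) (by linarith) _
    have h13 : S * 2 * 3 ^ (N - 1) ≤ ε / 2 * Real.log Y := by
      rw [div_le_iff₀ hε] at hY3'
      linarith
    calc S * (2 * Y) * (1 + Real.log (2 * Y)) ^ (N - 1) / (1 + Real.log (2 * Y)) ≤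
        S * (2 * Y) * (3 ^ (N - 1) * Real.log Y ^ (N - 1)) / Real.log Y := by
          refine div_le_div₀ (by positivity) ?_ hL (by linarith)
          exact mul_le_mul_of_nonneg_left h12 (by positivity)
      _ = S * 2 * 3 ^ (N - 1) * (Y * Real.log Y ^ (N - 1)) / Real.log Y := by ring
      _ ≤ ε / 2 * Real.log Y * (Y * Real.log Y ^ (N - 1)) / Real.log Y := by
          refine div_le_div_of_nonneg_right ?_ hL.le
          exact mul_le_mul_of_nonneg_right h13 (by positivity)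
      _ = _ := by
          field_simp
  calc _ ≤ ε / 2 * Y * Real.log Y ^ (N - 1) + ε / 2 * Y * Real.log Y ^ (N - 1) :=
        add_le_add (hsumA.trans hA1) (hsumB.trans hB1)
    _ = _ := by ring

end H41.CC
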