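import Pool.Agent.H57.CC.Def
import Pool.Agent.H57.CC.VS
import Pool.Agent.H57.CC.Rcs
import Pool.Agent.H57.MP.Mc

/-!
# H41-CC-PT: the level one form of the sum over the homomorphisms with a trivial functional

`ptw`: if the functional of `X` is trivial, `FX (fC 0) f = rhn * wtR f` if the level one data of `f` agree with `ρ₁` at `S0` (`LC`), and `0` otherwise. `lc_cls`: `LC` depends only on the classes of `f`.
-/

set_option autoImplicit false

open scoped NumberField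
open IsDedekindDomain Filter Topology
open scoped Classical

noncomputable section

namespace H41.CC

open H57.CC H57.PC H57.LOW H63.MA H38.BB H38.BG H51.CUB H77.PT H77.PC3 H57.MP H57.BRA

variable {K : Type} [Field K] [NumberField K] {p : ℕ} {ζ : K} {Ω : Type} [Field Ω]
  [Algebra K Ω] [IsAlgClosure K Ω] {m l w N k : ℕ} {P R : Type} [Group P] [Group R]

/-- the level one data of `f` agree with those of `ρ₁` at `S0` -/
def LC [NeZero p] (D : RD0 K p ζ) (Q : DP K Ω) (Dg : GP p m l w N P R) (ρ₁ : Gal(Ω/K) →* R)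
    (b : Fin m → Kˣ) (f : Fin N → Finset (Pl K)) : Prop :=
  ∀ v ∈ D.S0, ∀ σ ∈ dec (K := K) (Q.P v), ∀ j, kk p ζ (akR D Dg.cr b f j) σ =
    Multiplicative.toAdd (Dg.π (ρ₁ σ)) j

private theorem pt_xi0 (Dg : GP p m l w N P R) (i : Fin N) (x : Fin w → ZMod p) :
    xi Dg 0 i x = 0 := by
  unfold H57.PC.xi
  split_ifs
  · simp [dt]
  · rfl

private theorem pt_fC0 [NeZero p] (Dg : GP p m l w N P R) (i : Fin N) (x : Fin w → ZMod p) :
    fC Dg 0 i x = if x ∈ Dg.Bi i then (((Dg.Wn i : ℝ) / Nat.card (Dg.Bi i) : ℝ) : ℂ) else 0 := by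
  unfold fC
  split_ifs
  · rw [show (0 : Fin N → Fin l → ZMod p) i = 0 from rfl, pt_xi0, ep_zero, mul_one]
  · rfl

private theorem pt_kV [NeZero p] (Dg : GP p m l w N P R) (i : Fin N) (u : Fin m → ZMod p)
    (hu : u ∈ Dg.C i) : Dg.kV u (Dg.s i) = 0 := by
  obtain ⟨x, hx, rfl⟩ := hu
  funext k
  have h := Dg.hk (Dg.q x) (Dg.q (Dg.g i)) k
  have h1 : Dg.q x * Dg.q (Dg.g i) * (Dg.q x)⁻¹ * (Dg.q (Dg.g i))⁻¹ = 1 := by
    rw [← map_mul, hx, map_mul]
    group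
  rw [h1] at h
  have h2 : Dg.cv k (1 : R) = 0 := by
    have h3 := Dg.vadd k 1 1 (map_one _) (map_one _)
    rw [mul_one] at h3
    exact left_eq_add.1 h3
  rw [h2] at h
  exact h.symm

/-- the sum over the homomorphisms -/
theorem ptw [NeZero p] [Finite P] [Finite R] (hp : p.Prime) (hp2 : MOne p K)
    (hζ : IsPrimitiveRoot ζ p) (hz : Z2 p K) {D : RD0 K p ζ} {L : LDs D Ω} (Q : DP K Ω)
    (Fr : FR L) (Dg : GP p m l w N P R) (X : VP K Ω p l k R)
    (hX : X.Ok D Q) (ht : X.Tr ζ) (ρ₁ : Gal(Ω/K) →* R) (h₁ : H38.ML.FT ρ₁)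
    (hr : ∀ j, X.r j = ρ₁ (X.σ j)) (b : Fin m → Kˣ) (hb : BS2 D b ∅)
    (f : Fin N → Finset (Pl K)) (hf : Dj f) (hG : ∀ i, ∀ v ∈ f i, D.Gd v) :
    FX Dg Fr b X (fC Dg 0) f = if LC D Q Dg ρ₁ b f then
      (((rhn L Dg : ℝ) * wtR Dg.cr f (fun v k => D.LL v (akR D Dg.cr b f k)) : ℝ) : ℂ) else 0 := by
  have hph : ∀ ρ ∈ RHf L Dg b ∅ (fun _ _ => 1) f, X.ph Dg ρ =
      if LC D Q Dg ρ₁ b f then 1 else 0 := by
    intro ρ hρ
    rw [mem_RHf' hp hζ] at hρ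
    rw [vs_tr hp hp2 hζ L Dg X hX ht ρ ρ₁ hρ.1 h₁ hr]
    refine if_congr ?_ rfl rfl
    unfold LC
    refine forall_congr' fun v => forall_congr' fun _ => forall_congr' fun σ =>
      forall_congr' fun _ => ?_
    constructor
    · intro h j
      rw [hρ.2.1, h]
    · intro h
      apply Multiplicative.toAdd.injective
      funext j
      rw [← hρ.2.1, h j]
  unfold FX
  by_cases hLC : LC D Q Dg ρ₁ b f
  swap
  · rw [if_neg hLC]
    refine Finset.sum_eq_zero fun ρ hρ => ?_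
    rw [hph ρ hρ, if_neg hLC, zero_mul]
  rw [if_pos hLC]
  have hph' : ∀ ρ ∈ RHf L Dg b ∅ (fun _ _ => 1) f,
      X.ph Dg ρ * ∏ i, ∏ v ∈ f i, fC Dg 0 i (cq Dg Fr ρ v) =
      ∏ i, ∏ v ∈ f i, fC Dg 0 i (cq Dg Fr ρ v) := by
    intro ρ hρ
    rw [hph ρ hρ, if_pos hLC, one_mul]
  rw [Finset.sum_congr rfl hph']
  have hmem : ∀ ρ ∈ RHf L Dg b ∅ (fun _ _ => 1) f, ∀ i, ∀ v ∈ f i,
      (cq Dg Fr ρ v ∈ Dg.Bi i ↔ (fun k => D.LL v (akR D Dg.cr b f k)) ∈ Dg.C i) := by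
    intro ρ hρ i v hv
    rw [mem_RHf' hp hζ] at hρ
    obtain ⟨e1, e2, e3⟩ := rh_F Dg Fr hG hρ hv
    rw [← e3]
    exact lob_mem hp Dg i e1 e2
  rw [loe_wt hp]
  by_cases hC : ∀ i, ∀ v ∈ f i, (fun k => D.LL v (akR D Dg.cr b f k)) ∈ Dg.C i
  · rw [if_pos hC]
    have h1 : ∀ ρ ∈ RHf L Dg b ∅ (fun _ _ => 1) f,
        ∏ i, ∏ v ∈ f i, fC Dg 0 i (cq Dg Fr ρ v) =
        ∏ i, ((((Dg.Wn i : ℝ) / Nat.card (Dg.Bi i) : ℝ) : ℂ)) ^ (f i).card := by
      intro ρ hρ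
      refine Finset.prod_congr rfl fun i _ => ?_
      rw [← Finset.prod_const]
      refine Finset.prod_congr rfl fun v hv => ?_
      rw [pt_fC0, if_pos ((hmem ρ hρ i v hv).2 (hC i v hv))]
    rw [Finset.sum_congr rfl h1, Finset.sum_const, nsmul_eq_mul,
      rcs_eq hp hp2 hζ hz Q Fr Dg b hb f hf hG ρ₁ h₁ hLC
        (fun i v hv => pt_kV Dg i _ (hC i v hv))]
    push_cast
    rw [mul_assoc, ← Finset.prod_mul_distrib]
    congr 1
    refine Finset.prod_congr rfl fun i _ => ?_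
    rw [← mul_pow]
    congr 1
    have h3 : (Nat.card {r : R // IsConj r (Dg.q (Dg.g i))} : ℂ) * Dg.Wn i =
        Nat.card (Dg.Bi i) * Nat.card (ann0 (Dg.C i)) := by
      exact_mod_cast wn_card hp Dg i
    have h4 : (Nat.card (Dg.Bi i) : ℂ) ≠ 0 := by
      have : 0 < Nat.card (Dg.Bi i) := Nat.card_pos
      exact_mod_cast this.ne'
    rw [← mul_div_assoc, h3, mul_div_cancel_left₀ _ h4]
  · rw [if_neg hC, mul_zero, Complex.ofReal_zero]
    push Not at hC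
    obtain ⟨i, v, hv, hn⟩ := hC
    refine Finset.sum_eq_zero fun ρ hρ => ?_
    refine Finset.prod_eq_zero (Finset.mem_univ i) (Finset.prod_eq_zero hv ?_)
    rw [pt_fC0, if_neg (fun h => hn ((hmem ρ hρ i v hv).1 h))]

/-- the condition depends only on the classes -/
theorem lc_cls [NeZero p] (hp : p.Prime) (hp2 : MOne p K)
    (hζ : IsPrimitiveRoot ζ p) {D : RD0 K p ζ} (Q : DP K Ω)
    (Dg : GP p m l w N P R) (X : VP K Ω p l k R)
    (hX : X.Ok D Q) (ρ₁ : Gal(Ω/K) →* R) (h₁ : H38.ML.FT ρ₁) (b : Fin m → Kˣ) :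
    ∃ h : (Fin N → Fin D.r → ZMod p) → ℂ, (∀ q, ‖h q‖ ≤ 1) ∧
      ∀ f : Fin N → Finset (Pl K), (∀ i, ∀ v ∈ f i, D.Gd v) →
        (if LC D Q Dg ρ₁ b f then (1 : ℂ) else 0) = h (fun i => qf D (f i)) := by
  obtain ⟨κ, hκ⟩ := vs_lin hp hp2 hζ X hX
  obtain ⟨E, hE, hE2⟩ := h₁
  have h2 : ∀ j : Fin m, ∃ a : Kˣ, ∀ σ : Gal(Ω/K), kk p ζ a σ =
      Multiplicative.toAdd (Dg.π (ρ₁ σ)) j := fun j =>
    vs_kc hp hζ (fun σ => Multiplicative.toAdd (Dg.π (ρ₁ σ)) j) (fun σ τ => by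
      simp only [map_mul, toAdd_mul, Pi.add_apply]) ⟨E, hE, fun u hu => by
        have h1 : ρ₁ u = 1 := MonoidHom.mem_ker.1 (hE2 hu)
        rw [h1, map_one, toAdd_one, Pi.zero_apply]⟩
  choose a ha using h2
  refine ⟨fun q => if ∀ (t : Fin k) (j : Fin m), kk p ζ (b j) (X.σ t) +
      ∑ i, Dg.cr.x i j * dt (κ t) (q i) = kk p ζ (a j) (X.σ t) then 1 else 0, ?_, ?_⟩
  · intro q
    dsimp only
    split_ifs
    · rw [norm_one]
    · rw [norm_zero]
      exact zero_le_one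
  · intro f hG
    refine if_congr ?_ rfl rfl
    have hval : ∀ (t : Fin k) (j : Fin m), kk p ζ (akR D Dg.cr b f j) (X.σ t) =
        kk p ζ (b j) (X.σ t) + ∑ i, Dg.cr.x i j * dt (κ t) (qf D (f i)) := by
      intro t j
      unfold akR
      rw [kk_mul_arg hp hζ, kk_prod_arg hp hζ]
      congr 1
      refine Finset.sum_congr rfl fun i _ => ?_
      rw [kk_prod_arg hp hζ]
      have h3 : dt (κ t) (qf D (f i)) = ∑ v ∈ f i, dt (κ t) (D.q v) := by
        unfold qf dt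
        rw [Finset.sum_comm]
        refine Finset.sum_congr rfl fun e _ => ?_
        rw [Finset.sum_apply, Finset.mul_sum]
      rw [h3, Finset.mul_sum]
      refine Finset.sum_congr rfl fun v hv => ?_
      rw [← zpow_natCast, kk_zpow_arg hp hζ, hκ v (hG i v hv).1 t, Int.cast_natCast,
        ZMod.natCast_zmod_val]
    have hq : ∀ (c c' : Kˣ) (σ : Gal(Ω/K)), kk p ζ (c * c'⁻¹) σ = kk p ζ c σ - kk p ζ c' σ := by
      intro c c' σ
      rw [kk_mul_arg hp hζ, ← zpow_neg_one, kk_zpow_arg hp hζ]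
      push_cast
      ring
    constructor
    · intro h t j
      obtain ⟨v, hv, hσ⟩ := hX.mem t
      rw [← hval, h v hv _ hσ j, ha]
    · intro h v hv σ hσ j
      rw [← ha]
      have h4 := hX.det (akR D Dg.cr b f j * (a j)⁻¹) (fun t => by
        rw [hq, hval, h t j, sub_self]) v hv σ hσ
      rw [hq] at h4
      exact sub_eq_zero.1 h4

end H41.CC
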